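import Pool.Agent.Helper1.TE.Goals3

/-!
# PROJECT TE, packet COM: compilation of numeric machines to Turing machines
-/

namespace Pool.Agent.Helper89.TE

open Pool.Agent.Helper1.TE
open Pool.Agent.Helper65.LinSpace (Ctx LS)

theorem gCOM : GoalCOM := by
  intro hXPR hXB hR hDT hA hB' α _ N hadr hnext hacc hle hst hac0
  obtain ⟨P, o, c, hB⟩ := hXB hXPR N hadr hnext hacc hle
  have hf0 := finite_XSt (P 0)
  have hf1 := finite_XSt (P 1)
  obtain ⟨m0, hm0⟩ := (Set.finite_range (xtp (P 0))).bddAbove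
  obtain ⟨m1, hm1⟩ := (Set.finite_range (xtp (P 1))).bddAbove
  have hm0' : ∀ a, xtp (P 0) a ≤ m0 := fun a => hm0 ⟨a, rfl⟩
  have hm1' : ∀ a, xtp (P 1) a ≤ m1 := fun a => hm1 ⟨a, rfl⟩
  have h0 : ∀ a, xtp (P 0) a < m0 + m1 + o + 1 := fun a => by have := hm0' a; omega
  have h1 : ∀ a, xtp (P 1) a < m0 + m1 + o + 1 := fun a => by have := hm1' a; omega
  refine ⟨m0 + m1 + o + 1, xTM P (⟨o, by omega⟩ : Fin (m0 + m1 + o + 1)) h0 h1, 2 * c + 2,
    fun w S hS hU => ?_⟩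
  have hA' := hA hR hDT N P o c hB hle hst hac0 (m0 + m1 + o + 1)
    (⟨o, by omega⟩ : Fin (m0 + m1 + o + 1)) rfl h0 h1 w S hS
  have hB'' := hB' hR hDT N P o c hB hle hst hac0 (m0 + m1 + o + 1)
    (⟨o, by omega⟩ : Fin (m0 + m1 + o + 1)) rfl h0 h1 w S hS hU
  refine ⟨hA'.1, ?_, hB''⟩
  intro d hd i
  refine (hA'.2 d hd i).trans ?_
  have : (S + 2) * c + 2 ≤ (2 * c + 2) * (S + 1) := by nlinarith
  exact_mod_cast this

end Pool.Agent.Helper89.TE
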