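import Pool.Agent.Helper1.TE.Goals

/-!
Project TE (MP_8b4d68_lc), packet GC.
-/

set_option autoImplicit false

namespace Pool.Agent.Helper89.TE

open Pool.Agent.Helper1.TE
open Pool.Agent.Helper65.LinSpace (dig tab dig_tab dig_lt)
open Finset

variable (c : ℕ → ℕ → ℕ) (m L R : ℕ)

theorem wN_cast (p X : ℕ) (hP : 0 < L + R) (hn : nrm c m p ≤ L) :
    ((wN c m L R p X : ℕ) : ZMod (L + R)) =
      (∑ i ∈ range m, 2 * (c p i : ZMod (L + R)) * (dig (L + R) X i : ZMod (L + R))) -
        (dig (L + R) X m : ZMod (L + R)) +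
        ((L : ZMod (L + R)) - (nrm c m p : ZMod (L + R))) *
          (dig (L + R) X (m + 1) : ZMod (L + R)) := by
  unfold wN
  rw [ZMod.natCast_mod, Nat.cast_add, Nat.cast_add, Nat.cast_mul, Nat.cast_mul,
    Nat.cast_sub (show 1 ≤ L + R by omega), Nat.cast_sub hn, ZMod.natCast_self, Nat.cast_sum]
  simp only [Nat.cast_mul, Nat.cast_one, Nat.cast_ofNat]
  ring

theorem wN_lt (p X : ℕ) (hP : 0 < L + R) : wN c m L R p X < L + R := Nat.mod_lt _ hP

theorem dig_shX (p X i : ℕ) (hP : 0 < L + R) (hi : i < m + 2) :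
    (dig (L + R) (shX c m L R p X) i : ZMod (L + R)) =
      (dig (L + R) X i : ZMod (L + R)) + (vN c m p i : ZMod (L + R)) := by
  unfold shX
  rw [dig_tab (fun i _ => Nat.mod_lt _ hP) hi, ZMod.natCast_mod, Nat.cast_add]

theorem dig_ushX (p X i : ℕ) (hP : 0 < L + R) (hi : i < m + 2) (hv : vN c m p i ≤ L + R) :
    (dig (L + R) (ushX c m L R p X) i : ZMod (L + R)) =
      (dig (L + R) X i : ZMod (L + R)) - (vN c m p i : ZMod (L + R)) := by
  unfold ushX
  rw [dig_tab (fun i _ => Nat.mod_lt _ hP) hi, ZMod.natCast_mod, Nat.cast_add,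
    Nat.cast_sub hv, ZMod.natCast_self]
  ring

theorem dig_addm (X y i : ℕ) (hP : 0 < L + R) (hi : i < m + 2) :
    (dig (L + R) (addm m L R X y) i : ZMod (L + R)) =
      (dig (L + R) X i : ZMod (L + R)) + (if i = m then (y : ZMod (L + R)) else 0) := by
  unfold addm
  rw [dig_tab (d := fun i => if i = m then (dig (L + R) X m + y) % (L + R) else dig (L + R) X i)
    (fun i _ => by
      split_ifs
      · exact Nat.mod_lt _ hP
      · exact dig_lt hP _ _) hi]
  by_cases h : i = m
  · rw [if_pos h, if_pos h, ZMod.natCast_mod, Nat.cast_add, h]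
  · rw [if_neg h, if_neg h, add_zero]

theorem vN_le {K : ℕ} (h : CodeOK c m L R K) (p : ℕ) (hp : p < K) (i : ℕ) :
    vN c m p i ≤ L + R := by
  unfold vN
  split_ifs with h1 h2
  · exact (h.le p hp i h1).trans (Nat.le_add_right _ _)
  · exact (h.nrm_le p hp).trans (Nat.le_add_right _ _)
  · have := h.hL
    omega

theorem wN_addm {K : ℕ} (h : CodeOK c m L R K) (p : ℕ) (hp : p < K) (X : ℕ) :
    wN c m L R p (addm m L R X (R * (wN c m L R p X / R))) = wN c m L R p X % R := by
  have hL := h.hL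
  have hR := h.hR
  have hP : 0 < L + R := by omega
  have h1 : ((wN c m L R p (addm m L R X (R * (wN c m L R p X / R))) : ℕ) : ZMod (L + R)) =
      ((wN c m L R p X % R : ℕ) : ZMod (L + R)) := by
    have h2 : wN c m L R p X % R + R * (wN c m L R p X / R) = wN c m L R p X :=
      Nat.mod_add_div _ _
    have h3 : ((wN c m L R p X % R : ℕ) : ZMod (L + R)) =
        ((wN c m L R p X : ℕ) : ZMod (L + R)) -
          ((R * (wN c m L R p X / R) : ℕ) : ZMod (L + R)) := by
      rw [eq_sub_iff_add_eq, ← Nat.cast_add, h2]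
    rw [h3, wN_cast c m L R p _ hP (h.nrm_le p hp), wN_cast c m L R p X hP (h.nrm_le p hp)]
    generalize R * (wN c m L R p X / R) = y
    rw [dig_addm m L R X y m hP (by omega), dig_addm m L R X y (m + 1) hP (by omega), if_pos rfl,
      if_neg (by omega : ¬ m + 1 = m)]
    have h4 : ∀ i ∈ range m, 2 * (c p i : ZMod (L + R)) *
        (dig (L + R) (addm m L R X y) i : ZMod (L + R)) =
        2 * (c p i : ZMod (L + R)) * (dig (L + R) X i : ZMod (L + R)) := by
      intro i hi
      have hi' := mem_range.1 hi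
      rw [dig_addm m L R X y i hP (by omega), if_neg (by omega : ¬ i = m), add_zero]
    rw [sum_congr rfl h4]
    ring
  have h2 := (ZMod.natCast_eq_natCast_iff' _ _ _).1 h1
  rwa [Nat.mod_eq_of_lt (wN_lt c m L R p _ hP),
    Nat.mod_eq_of_lt ((Nat.mod_lt _ (by omega : 0 < R)).trans (by omega))] at h2

theorem wN_sh {K : ℕ} (h : CodeOK c m L R K) (p a : ℕ) (hp : p < K) (X : ℕ) :
    ((wN c m L R p (ushX c m L R p (shX c m L R a X)) : ℕ) : ZMod (L + R)) =
      ((wN c m L R p X : ℕ) : ZMod (L + R)) - ((dst c m p a : ℤ) : ZMod (L + R)) := by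
  have hL := h.hL
  have hP : 0 < L + R := by omega
  rw [wN_cast c m L R p _ hP (h.nrm_le p hp), wN_cast c m L R p X hP (h.nrm_le p hp)]
  have hd : ∀ i < m + 2, (dig (L + R) (ushX c m L R p (shX c m L R a X)) i : ZMod (L + R)) =
      (dig (L + R) X i : ZMod (L + R)) + (vN c m a i : ZMod (L + R)) -
        (vN c m p i : ZMod (L + R)) := by
    intro i hi
    rw [dig_ushX c m L R p _ i hP hi (vN_le c m L R h p hp i), dig_shX c m L R a X i hP hi]
  have v1 : ∀ q, vN c m q m = nrm c m q := fun q => by simp [vN]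
  have v2 : ∀ q, vN c m q (m + 1) = 1 := fun q => by simp [vN]
  have v3 : ∀ q, ∀ i < m, vN c m q i = c q i := fun q i hi => by simp [vN, hi]
  rw [hd m (by omega), hd (m + 1) (by omega), v1, v1, v2, v2]
  have h4 : ∀ i ∈ range m, 2 * (c p i : ZMod (L + R)) *
      (dig (L + R) (ushX c m L R p (shX c m L R a X)) i : ZMod (L + R)) =
      2 * (c p i : ZMod (L + R)) * (dig (L + R) X i : ZMod (L + R)) +
        (2 * (c p i : ZMod (L + R)) * (c a i : ZMod (L + R)) -
          2 * (c p i : ZMod (L + R)) ^ 2) := by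
    intro i hi
    have hi' := mem_range.1 hi
    rw [hd i (by omega), v3 a i hi', v3 p i hi']
    ring
  rw [sum_congr rfl h4, sum_add_distrib]
  have h5 : ((dst c m p a : ℤ) : ZMod (L + R)) = (nrm c m p : ZMod (L + R)) +
      (nrm c m a : ZMod (L + R)) -
        ∑ i ∈ range m, 2 * (c p i : ZMod (L + R)) * (c a i : ZMod (L + R)) := by
    unfold dst nrm
    push_cast
    rw [← sum_add_distrib, ← sum_sub_distrib]
    refine sum_congr rfl fun i _ => ?_
    ring
  have h6 : ∑ i ∈ range m, (2 * (c p i : ZMod (L + R)) * (c a i : ZMod (L + R)) -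
      2 * (c p i : ZMod (L + R)) ^ 2) =
      (∑ i ∈ range m, 2 * (c p i : ZMod (L + R)) * (c a i : ZMod (L + R))) -
        2 * (nrm c m p : ZMod (L + R)) := by
    rw [sum_sub_distrib]
    congr 1
    unfold nrm
    push_cast
    rw [mul_sum]
  rw [h5, h6]
  ring

/-- **Packet GC** -/
theorem gGC : GoalGC := by
  intro c m L R K h p hp a ha z _ hs
  by_contra hne
  have hL := h.hL
  have hR := h.hR
  have hP : 0 < L + R := by omega
  have h1 : wN c m L R p (ushX c m L R p (shX c m L R a
      (addm m L R z.1 (R * (wN c m L R p z.1 / R))))) < R := by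
    by_contra h0
    have h2 : (numGad c m L R K).un p ((numGad c m L R K).sh a ((numGad c m L R K).hd p z)) =
        none := if_neg h0
    rw [h2] at hs
    simp at hs
  have h2 : wN c m L R p (addm m L R z.1 (R * (wN c m L R p z.1 / R))) < R := by
    rw [wN_addm c m L R h p hp]
    exact Nat.mod_lt _ (by omega)
  have h3 := wN_sh c m L R h p a hp (addm m L R z.1 (R * (wN c m L R p z.1 / R)))
  generalize wN c m L R p (ushX c m L R p (shX c m L R a
      (addm m L R z.1 (R * (wN c m L R p z.1 / R))))) = u at h1 h3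
  generalize wN c m L R p (addm m L R z.1 (R * (wN c m L R p z.1 / R))) = w at h2 h3
  have h4 := h.le_dst p hp a ha (fun e => hne e.symm)
  have h5 := h.dst_le p hp a ha
  have h6 : (((u : ℤ) - w + dst c m p a : ℤ) : ZMod (L + R)) = 0 := by
    push_cast
    rw [h3]
    ring
  have h7 := (ZMod.intCast_zmod_eq_zero_iff_dvd _ _).1 h6
  have h8 : (0 : ℤ) < (u : ℤ) - w + dst c m p a := by omega
  have h9 := Int.le_of_dvd h8 h7
  push_cast at h9
  omega

end Pool.Agent.Helper89.TE
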